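import Pool.Agent.R489.HB.Stm

/-!
# HB-CON2: faces and edges of a contraction
-/

set_option autoImplicit false

namespace Pool.Agent.R891.HB

open Finset Pool.Agent.R489.HB

section aux

variable {W : Type} [DecidableEq W]

theorem mem_edg {Φ : Finset (Finset W)} {e : Finset W} :
    e ∈ edg Φ ↔ ∃ f ∈ Φ, e ⊆ f ∧ e.card = 2 := by
  simp [edg, Finset.mem_powersetCard]

theorem mem_fc {Φ : Finset (Finset W)} {e f : Finset W} : f ∈ fc Φ e ↔ f ∈ Φ ∧ e ⊆ f := by
  simp [fc]

theorem v_notin_mv {u v : W} (huv : u ≠ v) (f : Finset W) : v ∉ mv u v f := by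
  unfold mv
  split_ifs with h
  · rw [Finset.mem_insert, not_or]
    exact ⟨huv.symm, Finset.notMem_erase v f⟩
  · exact h

theorem mem_of_mv {u v b : W} {f : Finset W} (hb : b ≠ u) (h : b ∈ mv u v f) : b ∈ f := by
  unfold mv at h
  split_ifs at h with hv
  · rcases Finset.mem_insert.1 h with h1 | h1
    · exact absurd h1 hb
    · exact Finset.mem_of_mem_erase h1
  · exact h

theorem mv_card {u v : W} {f : Finset W} (hf : f.card = 3) (h : ¬ ({u, v} ⊆ f)) :
    (mv u v f).card = 3 := by
  unfold mv
  split_ifs with hv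
  · have hu : u ∉ f := by
      intro hu
      apply h
      intro x hx
      rcases Finset.mem_insert.1 hx with rfl | hx
      · exact hu
      · rw [Finset.mem_singleton] at hx
        rw [hx]
        exact hv
    rw [Finset.card_insert_of_notMem (fun h' => hu (Finset.mem_of_mem_erase h')),
      Finset.card_erase_of_mem hv, hf]
  · exact hf

theorem fc_empty {Φ : Finset (Finset W)} {e : Finset W} (he : e.card = 2) (h : e ∉ edg Φ) :
    fc Φ e = ∅ := by
  rw [Finset.eq_empty_iff_forall_notMem]
  intro f hf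
  obtain ⟨h1, h2⟩ := mem_fc.1 hf
  exact h (mem_edg.2 ⟨f, h1, h2, he⟩)

theorem fc_filter (Φ : Finset (Finset W)) (e : Finset W) (P : Finset W → Prop)
    [DecidablePred P] : fc (Φ.filter P) e = (fc Φ e).filter P := by
  unfold fc
  rw [Finset.filter_comm]

theorem fc_filter_one {Φ : Finset (Finset W)} {e T g : Finset W} {P : Finset W → Prop}
    [DecidablePred P] (h : fc Φ e = {T, g}) (hT : ¬ P T) (hg : P g) :
    (fc (Φ.filter P) e).card = 1 := by
  rw [fc_filter, h, Finset.filter_insert, if_neg hT, Finset.filter_singleton, if_pos hg,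
    Finset.card_singleton]

theorem pair_sub {u b : W} {f : Finset W} (hu : u ∈ f) (hb : b ∈ f) : ({u, b} : Finset W) ⊆ f := by
  intro x hx
  rcases Finset.mem_insert.1 hx with rfl | hx
  · exact hu
  · rw [Finset.mem_singleton] at hx
    rw [hx]
    exact hb

end aux

theorem CON2 (hA : S_APEX) (hC : S_CNT) : S_CON2 := by
  intro W _ Φ u v hT huv he hG h5
  obtain ⟨y1, y2, g1, g2, h1, h2, A⟩ := hA W Φ u v hT huv he hG h5
  set Ψ0 := Φ.filter (fun f => ¬ ({u, v} ⊆ f)) with hΨ0
  have hcontr : contr u v Φ = Ψ0.image (mv u v) := rfl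
  have hmem : ∀ f, f ∈ Ψ0 ↔ f ∈ Φ ∧ ¬ ({u, v} ⊆ f) := fun f => by
    rw [hΨ0, Finset.mem_filter]
  refine ⟨?_, ?_, ?_⟩
  · have hg1 : g1 ∈ fc Φ {u, y1} := by
      rw [A.g1f]
      simp
    refine ⟨mv u v g1, ?_⟩
    rw [hcontr]
    refine Finset.mem_image_of_mem _ ((hmem g1).2 ⟨(mem_fc.1 hg1).1, fun h => ?_⟩)
    exact A.vg1 (h (by simp))
  · intro f hf
    rw [hcontr] at hf
    obtain ⟨f0, hf0, rfl⟩ := Finset.mem_image.1 hf
    obtain ⟨hf1, hf2⟩ := (hmem f0).1 hf0
    exact mv_card (hT.three f0 hf1) hf2
  · intro e hee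
    obtain ⟨f, hf, hef, hec⟩ := mem_edg.1 hee
    rw [hcontr] at hf
    obtain ⟨f0, hf0, rfl⟩ := Finset.mem_image.1 hf
    obtain ⟨hf1, hf2⟩ := (hmem f0).1 hf0
    have hve : v ∉ e := fun h => v_notin_mv huv f0 (hef h)
    have hcnt := hC W Ψ0 u v e huv (fun f hf => ((hmem f).1 hf).2)
      (fun f hf f' hf' hff => A.inj ((hmem f).1 hf) ((hmem f').1 hf') hff) hve hec
    rw [hcontr]
    by_cases hue : u ∈ e
    · rw [hcnt.2 hue]
      -- write e = {u, b}
      obtain ⟨b, hbu, rfl⟩ : ∃ b, b ≠ u ∧ e = {u, b} := by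
        obtain ⟨x, y, hxy, rfl⟩ := Finset.card_eq_two.1 hec
        rcases Finset.mem_insert.1 hue with h | h
        · exact ⟨y, by rw [h]; exact hxy.symm, by rw [h]⟩
        · rw [Finset.mem_singleton] at h
          exact ⟨x, by rw [h]; exact hxy, by rw [h, Finset.pair_comm]⟩
      have hbv : b ≠ v := by
        rintro rfl
        apply hve
        simp
      have her : insert v (({u, b} : Finset W).erase u) = {v, b} := by
        rw [Finset.erase_insert]
        rw [Finset.mem_singleton]
        exact hbu.symm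
      rw [her]
      have huvT : ∀ y : W, ¬ ¬ (({u, v} : Finset W) ⊆ {u, v, y}) := by
        intro y h
        apply h
        exact pair_sub (by simp) (by simp)
      have huvg : ∀ g : Finset W, v ∉ g → ¬ (({u, v} : Finset W) ⊆ g) := fun g hg h =>
        hg (h (by simp))
      have huvh : ∀ g : Finset W, u ∉ g → ¬ (({u, v} : Finset W) ⊆ g) := fun g hg h =>
        hg (h (by simp))
      by_cases hb1 : b = y1
      · subst hb1
        rw [hΨ0, fc_filter_one A.g1f (huvT b) (huvg g1 A.vg1),
          fc_filter_one A.h1f (huvT b) (huvh h1 A.uh1)]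
      by_cases hb2 : b = y2
      · subst hb2
        rw [hΨ0, fc_filter_one A.g2f (huvT b) (huvg g2 A.vg2),
          fc_filter_one A.h2f (huvT b) (huvh h2 A.uh2)]
      -- b is not an apex
      have hno : ∀ f ∈ Φ, b ∈ f → ¬ (({u, v} : Finset W) ⊆ f) := by
        intro f hf hb hsub
        have : f ∈ fc Φ {u, v} := mem_fc.2 ⟨hf, hsub⟩
        rw [A.faces] at this
        simp only [Finset.mem_insert, Finset.mem_singleton] at this
        rcases this with rfl | rfl
        · simp only [Finset.mem_insert, Finset.mem_singleton] at hb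
          tauto
        · simp only [Finset.mem_insert, Finset.mem_singleton] at hb
          tauto
      have hfull : ∀ x : W, fc Ψ0 {x, b} = fc Φ {x, b} := by
        intro x
        rw [hΨ0, fc_filter]
        apply Finset.filter_true_of_mem
        intro f hf
        obtain ⟨ha, hb⟩ := mem_fc.1 hf
        exact hno f ha (hb (by simp))
      rw [hfull u, hfull v]
      have hnb : ¬ ({u, b} ∈ edg Φ ∧ {v, b} ∈ edg Φ) := by
        intro h
        rcases (A.common b hbu hbv).1 h with h | h
        · exact hb1 h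
        · exact hb2 h
      have hbf0 : b ∈ f0 := mem_of_mv hbu (hef (by simp))
      by_cases hvf : v ∈ f0
      · have hvb : {v, b} ∈ edg Φ :=
          mem_edg.2 ⟨f0, hf1, pair_sub hvf hbf0, Finset.card_pair hbv.symm⟩
        have hub : {u, b} ∉ edg Φ := fun h => hnb ⟨h, hvb⟩
        rw [fc_empty hec hub, hT.two _ hvb]
        rfl
      · have hmv : mv u v f0 = f0 := by
          unfold mv
          rw [if_neg hvf]
        rw [hmv] at hef
        have hub : {u, b} ∈ edg Φ := mem_edg.2 ⟨f0, hf1, hef, hec⟩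
        have hvb : {v, b} ∉ edg Φ := fun h => hnb ⟨hub, h⟩
        rw [fc_empty (Finset.card_pair hbv.symm) hvb, hT.two _ hub]
        rfl
    · rw [hcnt.1 hue]
      have hef0 : e ⊆ f0 := by
        intro x hx
        refine mem_of_mv ?_ (hef hx)
        rintro rfl
        exact hue hx
      have heΦ : e ∈ edg Φ := mem_edg.2 ⟨f0, hf1, hef0, hec⟩
      have hfull : fc Ψ0 e = fc Φ e := by
        rw [hΨ0, fc_filter]
        apply Finset.filter_true_of_mem
        intro f hf hsub
        obtain ⟨ha, hb⟩ := mem_fc.1 hf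
        have h3 := hT.three f ha
        have hsub2 : insert u (insert v e) ⊆ f := by
          intro x hx
          simp only [Finset.mem_insert] at hx
          rcases hx with rfl | rfl | hx
          · exact hsub (by simp)
          · exact hsub (by simp)
          · exact hb hx
        have h4 := Finset.card_le_card hsub2
        rw [Finset.card_insert_of_notMem, Finset.card_insert_of_notMem hve, hec, h3] at h4
        · omega
        · rw [Finset.mem_insert, not_or]
          exact ⟨huv, hue⟩
      rw [hfull]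
      exact hT.two e heΦ

end Pool.Agent.R891.HB
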